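import Pool.Agent.H37.CNU.Stmts
import Pool.Agent.H51.CNE.SLS

/-!
# Board `cnu`, row UNS (helper2, after row SLS): a spanning set of `k(x, y, u)` over `k(x)`
-/

set_option autoImplicit false

namespace Pool.CND

open Polynomial

theorem uns_thm : S_UNS := by
  intro k Ω _ _ _ q e x y u hq he hu h1 h2 z hz
  obtain ⟨F, hF⟩ : ∃ F : IntermediateField k Ω, F = IntermediateField.adjoin k {x} := ⟨_, rfl⟩
  have hxF : x ∈ F := by
    rw [hF]
    exact IntermediateField.mem_adjoin_simple_self k x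
  -- the polynomial of `y` over `F`
  obtain ⟨PS, hPS⟩ : ∃ PS : F[X], PS = Polynomial.X ^ q +
      (Polynomial.X - Polynomial.C ⟨x ^ (q + 1), pow_mem hxF (q + 1)⟩) := ⟨_, rfl⟩
  have hdeg : ∀ a : F, (Polynomial.X - Polynomial.C a : F[X]).degree < (q : WithBot ℕ) := by
    intro a
    rw [Polynomial.degree_X_sub_C]
    exact_mod_cast (by omega : 1 < q)
  have hPS1 : PS.Monic := by
    rw [hPS]
    exact Polynomial.monic_X_pow_add (hdeg _)
  have hPS2 : PS.natDegree = q := by
    rw [hPS, Polynomial.natDegree_add_eq_left_of_natDegree_lt, Polynomial.natDegree_X_pow]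
    rw [Polynomial.natDegree_X_pow, Polynomial.natDegree_X_sub_C]
    omega
  have hPS3 : aeval y PS = 0 := by
    rw [hPS]
    simp only [map_sub, map_pow, map_add, Polynomial.aeval_X, Polynomial.aeval_C]
    have e1 : algebraMap F Ω ⟨x ^ (q + 1), pow_mem hxF (q + 1)⟩ = x ^ (q + 1) := rfl
    rw [e1, ← h1]
    ring
  obtain ⟨K1, hK1⟩ : ∃ K1 : IntermediateField F Ω, K1 = IntermediateField.adjoin F {y} := ⟨_, rfl⟩
  have hyK : y ∈ K1 := by
    rw [hK1]
    exact IntermediateField.mem_adjoin_simple_self F y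
  have hxK : x ∈ K1 := K1.algebraMap_mem ⟨x, hxF⟩
  -- the polynomial of `u` over `K1`
  obtain ⟨v, hv⟩ : ∃ v : K1, (v : Ω) = x ^ (q ^ 2) - x :=
    ⟨⟨_, K1.sub_mem (pow_mem hxK (q ^ 2)) hxK⟩, rfl⟩
  obtain ⟨PY, hPY⟩ : ∃ PY : K1[X], PY = Polynomial.X ^ e - Polynomial.C v := ⟨_, rfl⟩
  have hPY1 : PY.Monic := by
    rw [hPY]
    exact Polynomial.monic_X_pow_sub_C _ (by omega)
  have hPY2 : PY.natDegree = e := by
    rw [hPY]
    exact Polynomial.natDegree_X_pow_sub_C
  have hPY3 : aeval u PY = 0 := by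
    rw [hPY]
    simp only [map_sub, map_pow, Polynomial.aeval_X, Polynomial.aeval_C]
    have e1 : algebraMap K1 Ω v = x ^ (q ^ 2) - x := hv
    rw [e1, h2, sub_self]
  -- `z` is in `K1(u)`
  have hz2 : z ∈ IntermediateField.adjoin K1 {u} := by
    have : IsScalarTower k K1 Ω := IsScalarTower.of_algebraMap_eq fun r => rfl
    obtain ⟨K2, hK2⟩ : ∃ K2 : IntermediateField k Ω, K2 =
        (IntermediateField.adjoin K1 {u}).restrictScalars k := ⟨_, rfl⟩
    have hle : IntermediateField.adjoin k {x, y, u} ≤ K2 := by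
      rw [IntermediateField.adjoin_le_iff]
      intro t ht
      rw [hK2]
      show t ∈ IntermediateField.adjoin K1 {u}
      rcases ht with rfl | rfl | rfl
      · exact (IntermediateField.adjoin K1 {u}).algebraMap_mem ⟨_, hxK⟩
      · exact (IntermediateField.adjoin K1 {u}).algebraMap_mem ⟨_, hyK⟩
      · exact IntermediateField.mem_adjoin_simple_self K1 _
    have hz3 := hle hz
    rw [hK2] at hz3
    exact hz3
  obtain ⟨b, hb⟩ := sls_simple u e PY hPY1 hPY2 he hPY3 z hz2
  have hb2 : ∀ j, ∃ c : ℕ → F, (b j : Ω) = ∑ i ∈ Finset.range q, algebraMap F Ω (c i) * y ^ i := by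
    intro j
    refine sls_simple y q PS hPS1 hPS2 (by omega) hPS3 _ ?_
    rw [← hK1]
    exact (b j).2
  choose c hc using hb2
  refine ⟨fun i j => algebraMap F Ω (c j i), fun i j => ?_, ?_⟩
  · rw [← hF]
    exact (c j i).2
  · rw [hb, Finset.sum_comm]
    rw [Finset.sum_range]
    refine Finset.sum_congr rfl fun j _ => ?_
    have e3 : algebraMap K1 Ω (b j) = ∑ i ∈ Finset.range q, algebraMap F Ω (c j i) * y ^ i := hc j
    rw [e3, Finset.sum_range, Finset.sum_mul]

end Pool.CND
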