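import Pool.Agent.H37.CNU.Stmts
import Pool.Agent.H55.CNE.SLT

/-!
# Board `cnu`, row UNT (helper2): the degree of `T` as a rational function of `x`
-/

set_option autoImplicit false

namespace Pool.CND

open Polynomial

theorem unt_thm : S_UNT := by
  intro k Ω _ _ _ q e x T hq heq hx hT
  obtain ⟨s, hs⟩ : ∃ s : ℕ, q ^ 2 = s + 1 := ⟨q ^ 2 - 1, by
    have : 0 < q ^ 2 := by positivity
    omega⟩
  have hs1 : 1 ≤ s := by
    have : 2 ^ 2 ≤ q ^ 2 := Nat.pow_le_pow_left hq 2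
    omega
  have ea : q ^ 3 - q = q * s := by
    have : q ^ 3 = q * s + q := by
      calc q ^ 3 = q * q ^ 2 := by ring
        _ = q * s + q := by rw [hs]; ring
    omega
  have eb : q ^ 3 + q ^ 2 - q - 1 = s * (q + 1) := by
    have : q ^ 3 + q ^ 2 = s * (q + 1) + q + 1 := by
      calc q ^ 3 + q ^ 2 = q ^ 2 * (q + 1) := by ring
        _ = s * (q + 1) + q + 1 := by rw [hs]; ring
    omega
  have en : q ^ 5 - q ^ 3 = q ^ 3 * s := by
    have : q ^ 5 = q ^ 3 * s + q ^ 3 := by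
      calc q ^ 5 = q ^ 3 * q ^ 2 := by ring
        _ = q ^ 3 * s + q ^ 3 := by rw [hs]; ring
    omega
  have ee : e * (q + 1) = q ^ 3 + 1 := by
    have h1 : (e + q) * (q + 1) = (q ^ 2 + 1) * (q + 1) := by rw [heq]
    have h2 : (e + q) * (q + 1) = e * (q + 1) + (q ^ 2 + q) := by ring
    have h3 : (q ^ 2 + 1) * (q + 1) = (q ^ 3 + 1) + (q ^ 2 + q) := by ring
    omega
  have es : q ^ 2 - 1 = s := by omega
  rw [ea, eb, en] at hT
  set D : k[X] := X ^ (q ^ 2) - X with hD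
  have hq2 : 1 < q ^ 2 := by omega
  have hDdeg : D.natDegree = q ^ 2 := FiniteField.X_pow_card_sub_X_natDegree_eq k hq2
  have hD0 : D ≠ 0 := by
    intro h
    rw [h, natDegree_zero] at hDdeg
    omega
  have hDx : aeval x D = x ^ (q ^ 2) - x := by
    rw [hD, map_sub, map_pow, aeval_X]
  have hqs : 0 < q * s := Nat.mul_pos (by omega) (by omega)
  have hsq : 0 < s * (q + 1) := Nat.mul_pos (by omega) (by omega)
  have hc : IsCoprime ((1 + D ^ (q * s) + D ^ (s * (q + 1))) ^ e) (D ^ (q ^ 3 * s)) := by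
    refine IsCoprime.pow ?_
    obtain ⟨a, ha⟩ : ∃ a, q * s = a + 1 := ⟨q * s - 1, by omega⟩
    obtain ⟨b, hb⟩ : ∃ b, s * (q + 1) = b + 1 := ⟨s * (q + 1) - 1, by omega⟩
    rw [ha, hb]
    refine ⟨1, -(D ^ a + D ^ b), ?_⟩
    ring
  have ht : aeval x ((1 + D ^ (q * s) + D ^ (s * (q + 1))) ^ e) = T * aeval x (D ^ (q ^ 3 * s)) := by
    rw [map_pow, map_pow, map_add, map_add, map_one, map_pow, map_pow, hDx]
    exact hT.symm
  have h := rel_deg k Ω x T hx _ _ (pow_ne_zero _ hD0) hc ht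
  have hn : (1 + D ^ (q * s) + D ^ (s * (q + 1))).natDegree = s * (q + 1) * q ^ 2 := by
    have h1 : (1 + D ^ (q * s)).natDegree ≤ q * s * q ^ 2 := by
      refine (natDegree_add_le _ _).trans ?_
      rw [natDegree_one, natDegree_pow, hDdeg]
      exact max_le (Nat.zero_le _) le_rfl
    rw [natDegree_add_eq_right_of_natDegree_lt, natDegree_pow, hDdeg]
    rw [natDegree_pow, hDdeg]
    refine lt_of_le_of_lt h1 ?_
    refine Nat.mul_lt_mul_of_pos_right ?_ (by omega)
    have : s * (q + 1) = q * s + s := by ring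
    omega
  have hP : ((1 + D ^ (q * s) + D ^ (s * (q + 1))) ^ e).natDegree =
      q ^ 2 * ((q ^ 2 - 1) * (q ^ 3 + 1)) := by
    rw [natDegree_pow, hn, es, ← ee]
    ring
  have hQ : (D ^ (q ^ 3 * s)).natDegree = q ^ 2 * (s * q ^ 3) := by
    rw [natDegree_pow, hDdeg]
    ring
  rw [hP, hQ, es, max_eq_left (Nat.mul_le_mul_left _ (Nat.mul_le_mul_left _ (by omega)))] at h
  rw [es]
  exact h

end Pool.CND
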